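import Pool.Agent.WAP.StmtsC
import Pool.Agent.WAP.Alg

set_option autoImplicit false

namespace Pool.Agent.WAP.H70

open Pool.Agent.WAP Pool.Agent.WAP.C Classical
open WeierstrassCurve WeierstrassCurve.Affine Pool.Agent.WAP.G

/-- Row KSC. -/
theorem ksc : KscStmt := by
  intro F _ _ d s _ _ hs
  refine ⟨sc s hs, ?_, ?_, fun a P => (sm_sc hs a P).symm⟩
  · rw [injective_iff_map_eq_zero]
    intro P hP
    exact (sc_eq_zero hs).1 hP
  · intro P
    rcases P with _ | ⟨X, Y, h⟩
    · constructor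
      · show (0 : F) = s ^ 2 * 0
        rw [mul_zero]
      · show (0 : F) = s ^ 3 * 0
        rw [mul_zero]
    · exact ⟨rfl, rfl⟩

end Pool.Agent.WAP.H70

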